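import Pool.Agent.Helper65.NW.Goals
import Pool.Agent.Helper81.Sus2.DEC
import Pool.Agent.Helper31.SusD.Grd

/-!
# Networks of processors: final assembly
-/

namespace Pool.Agent.Helper57.NW

open Pool.Agent.Helper65.LinSpace Pool.Agent.Helper78.Mpc Pool.Agent.Helper28.Ram Finset Filter
open Pool.Agent.Helper65.NW
open Pool.Agent.Helper65.RT (qT)
open Pool.Agent.Helper28.Long (ZL)
open Pool.Agent.Helper81.Sus2 (Decomp CodE)
open Pool.Agent.Helper31.SusD (itr itr_sound itr_complete)

/-- The first configuration. -/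
theorem rep_one (A : Net) (w y p : List Bool) (P : Prm) : Rep A w y p P 1 0 := by
  have hct : P.ct 1 = 0 := by
    unfold Prm.ct
    rw [Nat.sub_self, Nat.zero_mod]
  refine ⟨one_ne_zero, hct, fun z _ => ?_, fun z _ => ?_⟩
  · show (([] : List Bool)).length ≤ P.S
    exact Nat.zero_le _
  · unfold Prm.pre
    rw [hct, ifz_zero]
    rfl

/-- Digits of a sum. -/
theorem dig_T (m s a V B : ℕ) (hs : s < m) (ha : a < m) (hV : V < m) (hB : B < m) :
    dig m (s + m * (a + m * (V + m * B))) 0 = s ∧ dig m (s + m * (a + m * (V + m * B))) 1 = a ∧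
    dig m (s + m * (a + m * (V + m * B))) 2 = V ∧ dig m (s + m * (a + m * (V + m * B))) 3 = B := by
  have hm : 0 < m := by omega
  have q1 : (s + m * (a + m * (V + m * B))) / m = a + m * (V + m * B) := by
    rw [Nat.add_mul_div_left _ _ hm, Nat.div_eq_of_lt hs, zero_add]
  have q2 : (a + m * (V + m * B)) / m = V + m * B := by
    rw [Nat.add_mul_div_left _ _ hm, Nat.div_eq_of_lt ha, zero_add]
  have q3 : (V + m * B) / m = B := by
    rw [Nat.add_mul_div_left _ _ hm, Nat.div_eq_of_lt hV, zero_add]
  refine ⟨?_, ?_, ?_, ?_⟩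
  · unfold dig
    rw [pow_zero, Nat.div_one, Nat.add_mul_mod_self_left, Nat.mod_eq_of_lt hs]
  · unfold dig
    rw [pow_one, q1, Nat.add_mul_mod_self_left, Nat.mod_eq_of_lt ha]
  · unfold dig
    rw [pow_two, ← Nat.div_div_eq_div_mul, q1, q2, Nat.add_mul_mod_self_left, Nat.mod_eq_of_lt hV]
  · unfold dig
    rw [show m ^ 3 = m * m * m by ring, ← Nat.div_div_eq_div_mul, ← Nat.div_div_eq_div_mul, q1, q2,
      q3, Nat.mod_eq_of_lt hB]

theorem prm_eN (c e x y T : ℕ) :
    (prm c e x y T).eN = (Nat.unpair (Nat.unpair (Nat.unpair e).2).1).1 := rfl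

theorem prm_eA (c e x y T : ℕ) :
    (prm c e x y T).eA = (Nat.unpair (Nat.unpair (Nat.unpair e).2).1).2 := rfl

theorem prm_eX (c e x y T : ℕ) :
    (prm c e x y T).eX = (Nat.unpair (Nat.unpair (Nat.unpair e).2).2).1 := rfl

theorem prm_eD (c e x y T : ℕ) :
    (prm c e x y T).eD = (Nat.unpair (Nat.unpair (Nat.unpair (Nat.unpair e).2).2).2).1 := rfl

theorem prm_eE (c e x y T : ℕ) :
    (prm c e x y T).eE = (Nat.unpair (Nat.unpair (Nat.unpair (Nat.unpair e).2).2).2).2 := rfl

theorem prm_dg (c e x y T : ℕ) :
    (prm c e x y T).dg = min (Nat.unpair e).1 (ll (ll (Nat.log 2 x))) := rfl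

/-- The assembly. -/
theorem fin (hW : WIN_stmt) (hC : CODE_stmt) (hK : CHK_stmt) (hP : PAR_stmt) : FIN_stmt := by
  intro c A E C
  obtain ⟨eN, eA, eX, c₁, hA⟩ := hW A
  obtain ⟨eD, eE, c₂, hE⟩ := hC E
  obtain ⟨n₀, hn₀⟩ := eventually_atTop.1 (hP.2 (c₁ + c₂) A.deg)
  obtain ⟨n₁, hn₁⟩ := eventually_atTop.1 (hP.1 C)
  obtain ⟨e, he⟩ : ∃ e, e = Nat.pair A.deg (Nat.pair (Nat.pair eN eA)
    (Nat.pair eX (Nat.pair eD eE))) := ⟨_, rfl⟩
  refine ⟨e, n₀ + n₁, fun w y hw => ?_⟩
  have hlog : Nat.log 2 (num w) = w.length := Pool.Agent.Helper65.LinSpace.log_num w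
  have hNF : NF (num w) = (w.length + 2) ^ 4 := by
    unfold NF
    rw [hlog]
  have hq0 : 0 < qT w.length := Nat.succ_pos _
  -- the parameters
  have pS : ∀ T, (prm c e (num w) (num y) T).S = sT w.length T := fun T => by
    show sT (Nat.log 2 (num w)) T = _
    rw [hlog]
  have pZ : ∀ T, (prm c e (num w) (num y) T).Z = aT w.length T := fun T => by
    show aT (Nat.log 2 (num w)) T = _
    rw [hlog]
  have pz : ∀ T, (prm c e (num w) (num y) T).z = c * w.length := fun T => by
    show c * Nat.log 2 (num w) = _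
    rw [hlog]
  have pΛ : ∀ T, (prm c e (num w) (num y) T).Λ = LW w.length := fun T => by
    show LW (Nat.log 2 (num w)) = _
    rw [hlog]
  have pβ : ∀ T, (prm c e (num w) (num y) T).β = 2 ^ (2 * ll w.length) := fun T => by
    show 2 ^ (2 * ll (Nat.log 2 (num w))) = _
    rw [hlog]
  have pB : ∀ T, (prm c e (num w) (num y) T).B = bT w.length T := fun T => by
    show bT (Nat.log 2 (num w)) T = _
    rw [hlog]
  have pV : ∀ T, (prm c e (num w) (num y) T).V = vT w.length T := fun T => by
    show vT (Nat.log 2 (num w)) T = _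
    rw [hlog]
  have pK : ∀ T, (prm c e (num w) (num y) T).K = qT w.length := fun T => by
    show qT (Nat.log 2 (num w)) = _
    rw [hlog]
  have peN : ∀ T, (prm c e (num w) (num y) T).eN = eN := fun T => by
    rw [prm_eN, he]
    simp only [Nat.unpair_pair]
  have peA : ∀ T, (prm c e (num w) (num y) T).eA = eA := fun T => by
    rw [prm_eA, he]
    simp only [Nat.unpair_pair]
  have peX : ∀ T, (prm c e (num w) (num y) T).eX = eX := fun T => by
    rw [prm_eX, he]
    simp only [Nat.unpair_pair]
  have peD : ∀ T, (prm c e (num w) (num y) T).eD = eD := fun T => by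
    rw [prm_eD, he]
    simp only [Nat.unpair_pair]
  have peE : ∀ T, (prm c e (num w) (num y) T).eE = eE := fun T => by
    rw [prm_eE, he]
    simp only [Nat.unpair_pair]
  have hS : ∀ T, sT w.length T ≤ ZL w.length := fun T => (min_le_right _ _).trans (min_le_right _ _)
  have hb : ∀ T, aT w.length T ≤ ZL w.length := fun T => min_le_right _ _
  have pdg : ∀ T, (prm c e (num w) (num y) T).dg = A.deg := fun T => by
    obtain ⟨h0, -⟩ := hn₀ w.length (by omega) _ (hS T) _ (hb T)
    rw [prm_dg, hlog, he, Nat.unpair_pair]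
    exact min_eq_left h0
  have hll : w.length < 2 ^ ll w.length := by
    unfold ll
    exact Nat.lt_pow_succ_log_self (by norm_num) _
  -- the windows are right, and the decompressor has a code
  have hR : ∀ T p, p.length ≤ (prm c e (num w) (num y) T).Z →
      Right A w y p (prm c e (num w) (num y) T) (2 ^ (prm c e (num w) (num y) T).Z - 1) := by
    intro T p hp
    obtain ⟨h0, h1, h2, -, -, h5⟩ := hn₀ w.length (by omega) _ (hS T) _ (hb T)
    have h6 : w.length < 2 ^ (aT w.length T + ll w.length) :=
      lt_of_lt_of_le hll (Nat.pow_le_pow_right (by norm_num) (Nat.le_add_left _ _))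
    have hdeg : A.deg ≤ 2 ^ (aT w.length T + ll w.length) := by
      have h7 : ll (ll w.length) ≤ ll w.length + 1 := by
        show Nat.log 2 (ll w.length) + 1 ≤ _
        exact Nat.succ_le_succ (Nat.log_le_self _ _)
      have h8 : ll w.length + 1 ≤ 2 ^ ll w.length := Nat.lt_two_pow_self
      have h9 : 2 ^ ll w.length ≤ 2 ^ (aT w.length T + ll w.length) :=
        Nat.pow_le_pow_right (by norm_num) (Nat.le_add_left _ _)
      omega
    have hpos : 0 < 2 ^ (prm c e (num w) (num y) T).Z := by positivity
    refine hA w y p _ (aT w.length T + ll w.length) _ (peN T) (peA T) (peX T) (pdg T) rfl rfl hp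
      ?_ h6 ?_ hdeg ?_ ?_ ?_ ?_
    · rw [pZ]
      exact Nat.le_add_right _ _
    · rw [pZ]
      rw [pZ] at hpos
      have h7 : 2 ^ aT w.length T ≤ 2 ^ (aT w.length T + ll w.length) :=
        Nat.pow_le_pow_right (by norm_num) (Nat.le_add_right _ _)
      omega
    · rw [pS, pΛ]
      exact le_trans (Nat.mul_le_mul_right _ (Nat.le_add_right c₁ c₂)) h1
    · rw [pS, pΛ, pβ]
      omega
    · rw [pS]
      exact (h5 (num w) hlog).1
    · rw [pZ]
      refine le_trans (Nat.pow_le_pow_right (by norm_num) ?_) (h5 (num w) hlog).2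
      omega
  have hD : ∀ T, CodE E (prm c e (num w) (num y) T).dc := by
    intro T
    obtain ⟨-, -, -, h3, h4, h5⟩ := hn₀ w.length (by omega) _ (hS T) _ (hb T)
    refine hE _ (peD T) (peE T) ?_ ?_ ?_
    · rw [pZ, pΛ]
      exact le_trans (Nat.mul_le_mul_right _ (Nat.le_add_left c₂ c₁)) h3
    · rw [pZ, pΛ, pβ]
      omega
    · rw [pZ]
      exact (h5 (num w) hlog).2
  have hRZ : ∀ T, 2 ^ (prm c e (num w) (num y) T).Z ≤
      2 ^ (prm c e (num w) (num y) T).Z - 1 + 1 := fun T => by omega
  constructor
  · intro T _ hne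
    unfold accF at hne
    obtain ⟨q, hq, h0⟩ := exists_ne_zero_of_sum_ne_zero hne
    rw [mem_range] at hq
    obtain ⟨r, hr, h1⟩ := exists_ne_zero_of_sum_ne_zero h0
    rw [mem_range] at hr
    have hq1 : q ≠ 0 := by
      intro h
      apply h1
      rw [h, lt01, if_neg (lt_irrefl 0), zero_mul]
    have h1' : (prm c e (num w) (num y) T).acc q r ≠ 0 := by
      intro h
      apply h1
      rw [h, mul_zero]
    obtain ⟨p, rfl⟩ := exists_num (Nat.pos_of_ne_zero hq1)
    have hp : p.length ≤ (prm c e (num w) (num y) T).Z := by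
      rw [← log_num p]
      have := Nat.log_lt_of_lt_pow hq1 hq
      omega
    unfold Prm.acc at h1'
    obtain ⟨j, -, h2⟩ := exists_ne_zero_of_sum_ne_zero h1'
    obtain ⟨τ, hτ, h3⟩ := exists_ne_zero_of_sum_ne_zero h2
    rw [mem_range] at hτ
    obtain ⟨k1, k2, -⟩ := hK A w y p _ _ (hR T p hp) rfl rfl (hRZ T)
    refine ⟨p, r, ?_⟩
    rcases itr_sound (R := Rep A w y p (prm c e (num w) (num y) T))
      (rep_one A w y p _) (fun c t τ d h1 h2 h3 => (k1 c t τ d h1 h2 h3).1) j with h4 | ⟨t, h4⟩
    · exfalso
      apply h3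
      rw [h4]
      unfold Prm.ac
      rw [lt01, if_neg (lt_irrefl 0), zero_mul]
    · exact k2 r (by omega) _ t τ h4 hτ h3
  · rintro ⟨p, r, s, a, x, B, V, hacc, hpa, hra, hB0, hBV, hfit, hgap, b1, b2, b3⟩
    have hs : 1 ≤ s := by
      have h1 := (hfit r le_rfl p rfl).1
      have h2 : A.val w y p r p ≠ [] := by
        intro h
        unfold Net.AcceptsAt at hacc
        rw [h] at hacc
        simp at hacc
      have h3 : 0 < (A.val w y p r p).length := List.length_pos_iff.2 h2
      omega
    obtain ⟨h1, h2, h3, h4, h5, h6, h7, h8, h9⟩ := hn₁ w.length (by omega) x s a V B hs hB0 hBV b1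
      b2 b3
    obtain ⟨d0, d1, d2, d3⟩ := dig_T (w.length + 2) s a V B h4 h5 h6 h7
    set T := s + (w.length + 2) * (a + (w.length + 2) * (V + (w.length + 2) * B)) with hT
    have e1 : sT w.length T = s := by
      unfold sT
      rw [d0]
      exact min_eq_left (le_min h1 h2)
    have e2 : aT w.length T = a := by
      unfold aT
      rw [d1]
      exact min_eq_left h3
    have e3 : vT w.length T = V := by
      unfold vT
      rw [d2, e1]
      exact min_eq_left h8
    have e4 : bT w.length T = B := by
      unfold bT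
      rw [d3, e3]
      exact min_eq_left hBV
    have eN' : (prm c e (num w) (num y) T).N = qT w.length * B := by
      unfold Prm.N
      rw [pK, pB, e4]
    have hrb : r < 2 ^ (prm c e (num w) (num y) T).Z := by
      rw [pZ, e2]
      exact hra
    have hpZ : p.length ≤ (prm c e (num w) (num y) T).Z := by
      rw [pZ, e2]
      exact hpa
    obtain ⟨k1, -, k3⟩ := hK A w y p _ _ (hR T p hpZ) rfl rfl (hRZ T)
    have hfit' : Fit A w y p r (prm c e (num w) (num y) T).S (prm c e (num w) (num y) T).Z := by
      rw [pS, e1, pZ, e2]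
      exact fun t ht z hz => ⟨(hfit t ht z hz).1, (hfit t ht z hz).2.1⟩
    have hcns : Cns A w.length p r (prm c e (num w) (num y) T).B
        (prm c e (num w) (num y) T).V := by
      rw [pB, e4, pV, e3]
      exact fun t ht z hz => (hfit t ht z hz).2.2
    have hsays : ∀ D i v : List Bool,
        E.Says w y (prm c e (num w) (num y) T).Z D i v →
        (prm c e (num w) (num y) T).dc.lk (num D) (num i) = num v :=
      fun D i v h => (Pool.Agent.Helper81.Sus2.dec E w y _ (hD T) rfl rfl D i v).1 h
    have hk3 := k3 r hrb hfit' hcns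
    refine ⟨T, ?_, ?_⟩
    · rw [hNF]
      have m1 : V + (w.length + 2) * B < (w.length + 2) * (w.length + 2) := by
        calc V + (w.length + 2) * B < (w.length + 2) + (w.length + 2) * B := by omega
          _ = (w.length + 2) * (B + 1) := by ring
          _ ≤ _ := Nat.mul_le_mul_left _ (by omega)
      have m2 : a + (w.length + 2) * (V + (w.length + 2) * B) <
          (w.length + 2) * ((w.length + 2) * (w.length + 2)) := by
        calc a + (w.length + 2) * (V + (w.length + 2) * B)
            < (w.length + 2) + (w.length + 2) * (V + (w.length + 2) * B) := by omega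
          _ = (w.length + 2) * ((V + (w.length + 2) * B) + 1) := by ring
          _ ≤ _ := Nat.mul_le_mul_left _ m1
      calc T < (w.length + 2) + (w.length + 2) * (a + (w.length + 2) *
              (V + (w.length + 2) * B)) := by omega
        _ = (w.length + 2) * ((a + (w.length + 2) * (V + (w.length + 2) * B)) + 1) := by ring
        _ ≤ (w.length + 2) * ((w.length + 2) * ((w.length + 2) * (w.length + 2))) :=
            Nat.mul_le_mul_left _ m2
        _ = (w.length + 2) ^ 4 := by ring
    · have hcz : 1 < (prm c e (num w) (num y) T).cz := by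
        unfold Prm.cz
        have : 0 < 2 ^ (prm c e (num w) (num y) T).Z *
            2 ^ ((prm c e (num w) (num y) T).z + 1) := by positivity
        omega
      obtain ⟨j, hj, -, τ, hτ, hac⟩ := itr_complete
        (chk := (prm c e (num w) (num y) T).chk (num p))
        (ac := (prm c e (num w) (num y) T).ac (num p) r)
        (N := (prm c e (num w) (num y) T).N)
        (Z := (prm c e (num w) (num y) T).cz) (r := r)
        (R := Rep A w y p (prm c e (num w) (num y) T)) hcz
        (rep_one A w y p _) (fun c t h => h.ne) k1 (fun c' t hrep htr => by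
          obtain ⟨l1, l2⟩ := hk3 c' t hrep
          rcases Nat.lt_or_ge r (t + (prm c e (num w) (num y) T).N) with h10 | h10
          · left
            exact ⟨r - t, by omega, l1 hacc (r - t) (by omega) (by omega)⟩
          · right
            have h11 : ∃ u, t < u ∧ u < t + (prm c e (num w) (num y) T).N ∧
                A.Short E w y p a (c * w.length) u := by
              by_contra hcon
              push Not at hcon
              have h12 := hgap t (t + (prm c e (num w) (num y) T).N)
                (Nat.le_add_right _ _) h10 hcon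
              rw [eN'] at h12
              omega
            obtain ⟨u, hu1, hu2, hu3⟩ := h11
            obtain ⟨d, hd, hchk⟩ := l2 E u hsays hu1 (by omega) hu2
              (by rw [pZ, pz, e2]; exact hu3)
            exact ⟨u - t, by omega, d, hd, by omega, hchk⟩)
      have hin : (prm c e (num w) (num y) T).acc (num p) r ≠ 0 := by
        unfold Prm.acc
        intro h0
        rw [sum_eq_zero_iff] at h0
        have h13 := h0 j (mem_range.2 hj)
        rw [sum_eq_zero_iff] at h13
        exact hac (h13 τ (mem_range.2 hτ))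
      have hnp : 0 < num p := Pool.Agent.Helper65.LinSpace.num_pos p
      have hpr : num p < 2 ^ ((prm c e (num w) (num y) T).Z + 1) :=
        Pool.Agent.Helper81.Sus2.num_lt_pow hpZ
      unfold accF
      intro h0
      rw [sum_eq_zero_iff] at h0
      have h14 := h0 (num p) (mem_range.2 hpr)
      rw [sum_eq_zero_iff] at h14
      have h15 := h14 r (mem_range.2 hrb)
      rw [lt01, if_pos hnp, one_mul] at h15
      exact hin h15

end Pool.Agent.Helper57.NW
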